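import Pool.Agent.Work.MP_5532fa_full.P39

/-!
# MP_5532fa_co : structure of the extremal graphs and their spectral radius, all numbers of edges
-/

namespace Pool.Agent.Results.MP_5532fa_co.AllSizes

open Classical in
/-- The spectral radius of a finite graph: the largest real eigenvalue of the adjacency matrix. -/
noncomputable def spectralRadius {V : Type*} [Fintype V] (G : SimpleGraph V) : ℝ :=
  sSup (spectrum ℝ (G.adjMatrix ℝ))

/-- `G` has `m` edges, no clique on `r + 1` vertices and is not `r`-colourable. -/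
def InClass {V : Type} (r m : ℕ) (G : SimpleGraph V) : Prop :=
  G.CliqueFree (r + 1) ∧ ¬ G.Colorable r ∧ G.edgeSet.ncard = m

/-- `G` has the largest spectral radius among all finite graphs in `InClass r m`. -/
def IsExtremal {V : Type} [Fintype V] (r m : ℕ) (G : SimpleGraph V) : Prop :=
  InClass r m G ∧ ∀ (V' : Type) [Fintype V'] (G' : SimpleGraph V'), InClass r m G' →
    spectralRadius G' ≤ spectralRadius G

/-- The vertices of `S` in the class `i`. -/
def part {V : Type} {r : ℕ} (S : Finset V) (c : V → Fin r) (i : Fin r) : Finset V :=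
  S.filter (fun v => c v = i)

/-- `G` is the complete multipartite graph on `H` (classes given by `c`) without one edge `v₁ v₂`,
together with a vertex `w` joined to a set `A` of vertices of `H` which meets all classes and meets
the classes of `v₁`, `v₂` only in `v₁`, `v₂`, and isolated vertices. -/
def FormD {V : Type} {r : ℕ} (G : SimpleGraph V) (H : Finset V) (c : V → Fin r) : Prop :=
  ∃ (w : V) (A : Finset V) (v₁ v₂ : V), w ∉ H ∧ A ⊆ H ∧ c v₁ ≠ c v₂ ∧
    part A c (c v₁) = {v₁} ∧ part A c (c v₂) = {v₂} ∧ (∀ i, (part A c i).Nonempty) ∧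
    ∀ a b, G.Adj a b ↔
      (a ∈ H ∧ b ∈ H ∧ c a ≠ c b ∧ ¬ (a = v₁ ∧ b = v₂) ∧ ¬ (a = v₂ ∧ b = v₁)) ∨
        (a = w ∧ b ∈ A) ∨ (b = w ∧ a ∈ A)

/-- `G` is the complete multipartite graph on `H` (classes given by `c`), together with two adjacent
vertices `w`, `u`, where `w` is joined to the set `A` and `u` to the set `B` of vertices of `H`, and
isolated vertices; some class `i₀` contains no vertex of `A` or `B`, each other class contains at
least one vertex of `A` and exactly one vertex of `B`, and `B` is not contained in `A`. -/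
def FormE {V : Type} {r : ℕ} (G : SimpleGraph V) (H : Finset V) (c : V → Fin r) : Prop :=
  ∃ (w u : V) (A B : Finset V) (i₀ : Fin r), w ∉ H ∧ u ∉ H ∧ w ≠ u ∧ A ⊆ H ∧ B ⊆ H ∧
    part A c i₀ = ∅ ∧ part B c i₀ = ∅ ∧ (∀ i, i ≠ i₀ → (part A c i).Nonempty) ∧
    (∀ i, i ≠ i₀ → (part B c i).card = 1) ∧ ¬ B ⊆ A ∧
    ∀ a b, G.Adj a b ↔
      (a ∈ H ∧ b ∈ H ∧ c a ≠ c b) ∨ (a = w ∧ b ∈ A) ∨ (b = w ∧ a ∈ A) ∨
        (a = u ∧ b ∈ B) ∨ (b = u ∧ a ∈ B) ∨ (a = w ∧ b = u) ∨ (a = u ∧ b = w)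

/-- `√(2 (1 - 1/r) m) - (1 - 1/r) (1 - X) min(X, 1 - 2/r)` with `X = j / ((1 - 1/r) N)`. -/
noncomputable def mainTerm (r m N j : ℕ) : ℝ :=
  √(2 * (1 - 1 / (r : ℝ)) * m) -
    (1 - 1 / (r : ℝ)) * ((1 - (j : ℝ) / ((1 - 1 / (r : ℝ)) * N)) *
      min ((j : ℝ) / ((1 - 1 / (r : ℝ)) * N)) (1 - 2 / (r : ℝ)))

/-- Let `r ≥ 3`, `ε > 0`. For all large `m`, with `N` and `j` given by
`m = t_r(N) + j < t_r(N+1)`:
(1) the maximum spectral radius of the graphs with `m` edges without a clique on `r + 1` vertices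
which are not `r`-colourable exists and differs from `mainTerm r m N j` by at most `ε`;
(2) every graph `G` attaining the maximum has the form D or the form E, where `H` has
`N - 1`, `N` or `N + 1` vertices and the sizes of its classes are at distance at most `3 √|H|` from
`|H| / r`. -/
theorem result (r : ℕ) (hr : 3 ≤ r) (ε : ℝ) (hε : 0 < ε) : ∃ m₀ : ℕ, ∀ m ≥ m₀, ∀ N j : ℕ,
    m = (SimpleGraph.turanGraph N r).edgeSet.ncard + j →
    m < (SimpleGraph.turanGraph (N + 1) r).edgeSet.ncard →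
    (∃ G : SimpleGraph (Fin (2 * m)), IsExtremal r m G ∧
      |spectralRadius G - mainTerm r m N j| ≤ ε) ∧
    ∀ (V : Type) [Fintype V] (G : SimpleGraph V), IsExtremal r m G →
      ∃ (c : V → Fin r) (H : Finset V), N ≤ H.card + 1 ∧ H.card ≤ N + 1 ∧
        (∀ i, |((part H c i).card : ℝ) - (H.card : ℝ) / r| ≤ 3 * √(H.card : ℝ)) ∧
        (FormD G H c ∨ FormE G H c) := by
  obtain ⟨m1, H1⟩ := Pool.Agent.Work.MP_5532fa_up.pALL r ε hr hε
  obtain ⟨m2, H2⟩ := Pool.Agent.Work.MP_5532fa_up.pUNIV3 r hr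
  obtain ⟨m3, H3⟩ := Pool.Agent.Work.MP_5532fa_up.pEXT r hr
  have key : ∀ (V : Type) [Fintype V] (G : SimpleGraph V) (m : ℕ),
      MP5532fa.pE G = 2 * (m : ℝ) ↔ G.edgeSet.ncard = m := by
    intro V _ G m
    rw [MP5532fa.pE_eq]
    constructor
    · intro e
      have : (G.edgeSet.ncard : ℝ) = m := by linarith
      exact_mod_cast this
    · intro e
      rw [e]
  refine ⟨m1 + m2 + m3, fun m hm N j hmj hlt => ⟨?_, ?_⟩⟩
  · obtain ⟨a, G, b1, b2, b3, b4⟩ := H1 m (by omega) N j hmj hlt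
    obtain ⟨G', c1, c2, c3, c4⟩ := H3 m (by omega)
    have hup : spectralRadius G' ≤ mainTerm r m N j + ε := a _ G' c1 c3
    have hlo : mainTerm r m N j - ε ≤ spectralRadius G := b4
    have hle : spectralRadius G ≤ spectralRadius G' := c4 _ G b1 b2 b3
    refine ⟨G', ⟨⟨c1, c2, (key _ G' m).mp c3⟩, ?_⟩, ?_⟩
    · rintro V' _ K ⟨d1, d2, d3⟩
      exact c4 V' K d1 d2 ((key _ K m).mpr d3)
    · rw [abs_le]
      constructor
      · linarith
      · linarith
  · rintro V _ G ⟨⟨h1, h2, h3⟩, hmax⟩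
    obtain ⟨c, H, n1, n2, hs, h⟩ := H2 m (by omega) N j hmj hlt V G h1 h2 ((key _ G m).mpr h3)
      (fun V' _ G' a b e => hmax V' G' ⟨a, b, (key _ G' m).mp e⟩)
    refine ⟨c, H, n1, n2, hs, ?_⟩
    rcases h with ⟨w, A, v1, v2, h⟩ | ⟨w, u, A, B, i0, h⟩
    · exact Or.inl ⟨w, A, v1, v2, h.hw, h.hA, h.h12, h.h1, h.h2, h.hne, h.adj⟩
    · exact Or.inr ⟨w, u, A, B, i0, h.hw, h.hu, h.hwu, h.hA, h.hB, h.hA0, h.hB0, h.hAne,
        h.hB1, h.hBA, h.adj⟩

end Pool.Agent.Results.MP_5532fa_co.AllSizes
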