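import Pool.Agent.Work.MP_5532fa_co.Final

/-!
# MP_5532fa_co : the extremal graphs for the edge numbers e(K) + r - 1
-/

namespace Pool.Agent.Results.MP_5532fa_co.ExactExtremal

open Classical in
/-- The spectral radius of a finite graph: the largest real eigenvalue of the adjacency matrix. -/
noncomputable def spectralRadius {V : Type*} [Fintype V] (G : SimpleGraph V) : ℝ :=
  sSup (spectrum ℝ (G.adjMatrix ℝ))

/-- `G` is isomorphic to `D` together with some isolated vertices. -/
def IsUpToIsolated {V W : Type*} (G : SimpleGraph V) (D : SimpleGraph W) : Prop :=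
  ∃ f : D ↪g G, ∀ v, v ∉ Set.range f → ∀ w, ¬ G.Adj v w

/-- The number of vertices in the class `i`. -/
noncomputable def classSize {N r : ℕ} (c : Fin N → Fin r) (i : Fin r) : ℕ :=
  Nat.card {u : Fin N // c u = i}

/-- The complete multipartite graph with the classes given by `c`. -/
def multipartite {N r : ℕ} (c : Fin N → Fin r) : SimpleGraph (Fin N) where
  Adj u w := c u ≠ c w
  symm := ⟨fun _ _ h => h.symm⟩
  loopless := ⟨fun _ h => h rfl⟩

/-- The complete multipartite graph with the classes given by `c`, without the edge `v a, v b`,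
together with a new vertex `none` joined exactly to the vertices `v i`. -/
def gadgetGraph {N r : ℕ} (c : Fin N → Fin r) (v : Fin r → Fin N) (a b : Fin r) :
    SimpleGraph (Option (Fin N)) where
  Adj x y := match x, y with
    | some u, some w => c u ≠ c w ∧ ¬ (u = v a ∧ w = v b) ∧ ¬ (u = v b ∧ w = v a)
    | none, some w => ∃ i, v i = w
    | some u, none => ∃ i, v i = u
    | none, none => False
  symm := ⟨by
    intro x y h
    match x, y, h with
    | some u, some w, h => exact ⟨fun h' => h.1 h'.symm, fun h' => h.2.2 ⟨h'.2, h'.1⟩,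
        fun h' => h.2.1 ⟨h'.2, h'.1⟩⟩
    | none, some w, h => exact h
    | some u, none, h => exact h⟩
  loopless := ⟨by
    intro x h
    match x, h with
    | some u, h => exact h.1 rfl⟩

/-- The Turan graph `T_r(N)` without the edge joining its vertices `0` and `1` (which lie in two
largest classes), together with a new vertex `none` joined exactly to the vertices `0, ..., r-1`
(one in each class). -/
def turanGadget (r N : ℕ) : SimpleGraph (Option (Fin N)) where
  Adj x y := match x, y with
    | some u, some w => (SimpleGraph.turanGraph N r).Adj u w ∧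
        ¬ (u.val = 0 ∧ w.val = 1) ∧ ¬ (u.val = 1 ∧ w.val = 0)
    | none, some w => w.val < r
    | some u, none => u.val < r
    | none, none => False
  symm := ⟨by
    intro x y h
    match x, y, h with
    | some u, some w, h => exact ⟨h.1.symm, fun h' => h.2.2 ⟨h'.2, h'.1⟩,
        fun h' => h.2.1 ⟨h'.2, h'.1⟩⟩
    | none, some w, h => exact h
    | some u, none, h => exact h⟩
  loopless := ⟨by
    intro x h
    match x, h with
    | some u, h => exact h.1.ne rfl⟩

theorem turan_iso {r N : ℕ} (hr : 3 ≤ r) (hN : r ≤ N) :
    MP5532fa.DG (MP5532fa.cT r N (by omega)) (MP5532fa.vT r N hN) ⟨0, by omega⟩ ⟨1, by omega⟩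
      = turanGadget r N := by
  ext x y
  have hr0 : 0 < r := by omega
  have e0 : ∀ u : Fin N, u = MP5532fa.vT r N hN ⟨0, by omega⟩ ↔ u.val = 0 := by
    intro u
    constructor
    · intro h; rw [h]; rfl
    · intro h; exact Fin.ext h
  have e1 : ∀ u : Fin N, u = MP5532fa.vT r N hN ⟨1, by omega⟩ ↔ u.val = 1 := by
    intro u
    constructor
    · intro h; rw [h]; rfl
    · intro h; exact Fin.ext h
  have e2 : ∀ u : Fin N, (∃ i, MP5532fa.vT r N hN i = u) ↔ u.val < r := by
    intro u
    constructor
    · rintro ⟨i, rfl⟩; exact i.2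
    · intro h; exact ⟨⟨u.val, h⟩, Fin.ext rfl⟩
  match x, y with
  | some u, some w =>
    rw [MP5532fa.DG_some_some, e0, e0, e1, e1]
    have : MP5532fa.cT r N hr0 u ≠ MP5532fa.cT r N hr0 w ↔
        (SimpleGraph.turanGraph N r).Adj u w := by
      rw [SimpleGraph.turanGraph_adj]
      constructor
      · intro h h'
        exact h (Fin.ext h')
      · intro h h'
        exact h (congrArg Fin.val h')
    rw [this]
    rfl
  | none, some w =>
    rw [MP5532fa.DG_none_some, e2]
    rfl
  | some u, none =>
    rw [MP5532fa.DG_some_none, e2]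
    rfl
  | none, none => rfl

/-- Let `r ≥ 3` and `B`. For all large `N` and every complete `r`-partite graph `K` on `N` vertices
with class sizes differing by at most `B`: every graph `G` without a clique on `r + 1` vertices,
not `r`-colourable, with `e(K) + r - 1` edges satisfies `λ(G) ≤ λ(D)`, with equality exactly when
`G` is `D` plus isolated vertices, for a gadget graph `D` on the same number of edges whose missing
edge joins two largest classes, `D` being itself without a clique on `r + 1` vertices and not
`r`-colourable; if `K` is balanced then `D` is the graph obtained from the Turan graph. -/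
theorem result (r : ℕ) (hr : 3 ≤ r) (B : ℕ) : ∃ N₀ : ℕ, ∀ N ≥ N₀,
    ∀ c : Fin N → Fin r, (∀ i j, classSize c i ≤ classSize c j + B) →
    ∀ (V : Type) [Fintype V] (G : SimpleGraph V), G.CliqueFree (r + 1) → ¬ G.Colorable r →
      G.edgeSet.ncard = (multipartite c).edgeSet.ncard + (r - 1) →
      ∃ (c' : Fin N → Fin r) (v : Fin r → Fin N) (a b : Fin r),
        (∀ i, c' (v i) = i) ∧ a ≠ b ∧
        (∀ i, i ≠ a → i ≠ b →
          classSize c' i ≤ classSize c' a ∧ classSize c' i ≤ classSize c' b) ∧
        (gadgetGraph c' v a b).CliqueFree (r + 1) ∧ ¬ (gadgetGraph c' v a b).Colorable r ∧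
        (gadgetGraph c' v a b).edgeSet.ncard = G.edgeSet.ncard ∧
        spectralRadius G ≤ spectralRadius (gadgetGraph c' v a b) ∧
        (spectralRadius G = spectralRadius (gadgetGraph c' v a b) ↔
          IsUpToIsolated G (gadgetGraph c' v a b)) ∧
        ((∀ i j, classSize c i ≤ classSize c j + 1) →
          Nonempty (gadgetGraph c' v a b ≃g turanGadget r N)) := by
  obtain ⟨N0, hN0⟩ := MP5532fa.final_thm.{0} r hr B
  refine ⟨N0 + r, ?_⟩
  intro N hN c hB V _ G hfree hcol hedge
  have hNr : r ≤ N := by omega
  have hr0 : 0 < r := by omega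
  have hpE : MP5532fa.pE G
      = (N : ℝ) ^ 2 - ∑ i, (MP5532fa.sz c i : ℝ) ^ 2 + 2 * r - 2 := by
    have h1 := MP5532fa.pE_mult c (multipartite c) (fun _ _ => Iff.rfl)
    rw [MP5532fa.pE_eq, Fintype.card_fin] at h1
    rw [MP5532fa.pE_eq, hedge]
    push_cast
    rw [Nat.cast_sub (by omega)]
    push_cast
    linarith
  obtain ⟨c', v, a, b, hv, hab, htop, hsq, hsz, hpe, hle, hiff⟩ :=
    hN0 N (by omega) c hB G hfree hcol hpE
  have hD : gadgetGraph c' v a b = MP5532fa.DG c' v a b := by
    ext x y
    match x, y with
    | some u, some w => rfl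
    | none, some w => rfl
    | some u, none => rfl
    | none, none => rfl
  refine ⟨c', v, a, b, hv, hab, htop, ?_⟩
  rw [hD]
  refine ⟨MP5532fa.DG_cliqueFree hv hab, MP5532fa.DG_not_col hv hab hsz, ?_, hle, hiff, ?_⟩
  · rw [MP5532fa.pE_eq, MP5532fa.pE_eq] at hpe
    have : ((MP5532fa.DG c' v a b).edgeSet.ncard : ℝ) = (G.edgeSet.ncard : ℝ) := by linarith
    exact_mod_cast this
  · intro hbal
    have := MP5532fa.balanced_iso hr hNr hbal hsq hv hab htop
    rw [turan_iso hr hNr] at this
    exact this

end Pool.Agent.Results.MP_5532fa_co.ExactExtremal
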