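import Pool.Agent.Work.MP_5532fa_full.P39

/-!
# MP_5532fa_co : the form of the extremal graphs, all large numbers of edges for `r ≥ 7`
-/

namespace Pool.Agent.Results.MP_5532fa_co.ExactForms

open Classical in
/-- The spectral radius of a finite graph: the largest real eigenvalue of the adjacency matrix. -/
noncomputable def spectralRadius {V : Type*} [Fintype V] (G : SimpleGraph V) : ℝ :=
  sSup (spectrum ℝ (G.adjMatrix ℝ))

/-- `G` has `m` edges, no clique on `r + 1` vertices and is not `r`-colourable. -/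
def InClass {V : Type} (r m : ℕ) (G : SimpleGraph V) : Prop :=
  G.CliqueFree (r + 1) ∧ ¬ G.Colorable r ∧ G.edgeSet.ncard = m

/-- `G` has the largest spectral radius among all finite graphs in `InClass r m`. -/
def IsExtremal {V : Type} [Fintype V] (r m : ℕ) (G : SimpleGraph V) : Prop :=
  InClass r m G ∧ ∀ (V' : Type) [Fintype V'] (G' : SimpleGraph V'), InClass r m G' →
    spectralRadius G' ≤ spectralRadius G

/-- The number of edges of the Turan graph `T_r(N)`. -/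
noncomputable def t (r N : ℕ) : ℕ := (SimpleGraph.turanGraph N r).edgeSet.ncard

/-- `X = j / ((1 - 1/r) N)`; for `t_r(N) + j < t_r(N+1)` it lies between `0` and `1`. -/
noncomputable def ratio (r N j : ℕ) : ℝ := (j : ℝ) / ((1 - 1 / (r : ℝ)) * N)

/-- The vertices of `S` in the class `i`. -/
def part {V : Type} {r : ℕ} (S : Finset V) (c : V → Fin r) (i : Fin r) : Finset V :=
  S.filter (fun v => c v = i)

/-- Gadget over the complete multipartite graph `K` on `H` (classes given by `c`): an edge `v₁ v₂`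
of `K` between two largest classes is deleted, and a vertex `w` outside `H` is joined exactly to a
set `A` consisting of `v₁`, `v₂` and one vertex of each other class; all other vertices are
isolated. -/
def IsGadget {V : Type} {r : ℕ} (G : SimpleGraph V) (H : Finset V) (c : V → Fin r) : Prop :=
  ∃ (w : V) (A : Finset V) (v₁ v₂ : V), w ∉ H ∧ A ⊆ H ∧ (∀ i, (part A c i).card = 1) ∧
    v₁ ∈ A ∧ v₂ ∈ A ∧ c v₁ ≠ c v₂ ∧
    (∀ i, i ≠ c v₁ → i ≠ c v₂ → (part H c i).card ≤ (part H c (c v₁)).card ∧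
      (part H c i).card ≤ (part H c (c v₂)).card) ∧
    ∀ a b, G.Adj a b ↔
      (a ∈ H ∧ b ∈ H ∧ c a ≠ c b ∧ ¬ (a = v₁ ∧ b = v₂) ∧ ¬ (a = v₂ ∧ b = v₁)) ∨
        (a = w ∧ b ∈ A) ∨ (b = w ∧ a ∈ A)

/-- The largest class of the complete multipartite graph on `H` (classes given by `c`) is as large
as in any complete `r`-partite graph with the same numbers of vertices and edges (the class sizes
`z` then have the same sum and the same sum of squares). -/
def LargestPossible {V : Type} {r : ℕ} (H : Finset V) (c : V → Fin r) : Prop :=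
  ∃ i, ∀ z : Fin r → ℕ, ∑ k, z k = H.card → ∑ k, z k ^ 2 = ∑ k, (part H c k).card ^ 2 →
    ∀ k, z k ≤ (part H c i).card

/-- Outside the classes in `P`, the vertices of `A` are distributed in this way: classes of `H` of
equal size contain equal numbers of vertices of `A` up to one, and a larger class contains more than
one vertex of `A` only if all smaller classes are contained in `A`. -/
def SmallFirst {V : Type} {r : ℕ} (H A : Finset V) (c : V → Fin r) (P : Finset (Fin r)) : Prop :=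
  ∀ i k, i ∉ P → k ∉ P →
    ((part H c i).card = (part H c k).card → (part A c i).card ≤ (part A c k).card + 1) ∧
    ((part H c i).card < (part H c k).card →
      (part A c i).card = (part H c i).card ∨ (part A c k).card = 1)

/-- Type D: the Turan graph on a set `H` of `N` vertices without an edge `v₁ v₂`, and a vertex `w`
joined exactly to a set `A` of `j + 1` vertices of `H` meeting all classes, `v₁` and `v₂` being the
only vertices of `A` in their classes; the other vertices are isolated. The classes of `v₁` and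
`v₂` are largest ones, and the rest of `A` is placed in the smaller classes first. -/
def IsTypeD {V : Type} (r N j : ℕ) (G : SimpleGraph V) : Prop :=
  ∃ (H : Finset V) (c : V → Fin r) (w : V) (A : Finset V) (v₁ v₂ : V),
    H.card = N ∧ (∀ i k, (part H c i).card ≤ (part H c k).card + 1) ∧
    w ∉ H ∧ A ⊆ H ∧ A.card = j + 1 ∧ (∀ i, (part A c i).Nonempty) ∧
    c v₁ ≠ c v₂ ∧ part A c (c v₁) = {v₁} ∧ part A c (c v₂) = {v₂} ∧
    (∀ i k, i ∈ ({c v₁, c v₂} : Finset (Fin r)) → k ∉ ({c v₁, c v₂} : Finset (Fin r)) →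
      (part H c k).card ≤ (part H c i).card) ∧
    SmallFirst H A c {c v₁, c v₂} ∧
    ∀ a b, G.Adj a b ↔
      (a ∈ H ∧ b ∈ H ∧ c a ≠ c b ∧ ¬ (a = v₁ ∧ b = v₂) ∧ ¬ (a = v₂ ∧ b = v₁)) ∨
        (a = w ∧ b ∈ A) ∨ (b = w ∧ a ∈ A)

/-- The complete multipartite graph on `H` (classes given by `c`) and two adjacent new vertices `w`,
`u`; `w` is joined to `A`, `u` to `B`; the other vertices are isolated. The class `i₀` contains no
vertex of `A` or `B`, each other class contains exactly one vertex of `B` and at least one vertex of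
`A`, and exactly one vertex of `B` is not in `A`. -/
def IsDouble {V : Type} {r : ℕ} (G : SimpleGraph V) (H : Finset V) (c : V → Fin r) (A : Finset V)
    (i₀ : Fin r) : Prop :=
  ∃ (w u : V) (B : Finset V), w ∉ H ∧ u ∉ H ∧ w ≠ u ∧ A ⊆ H ∧ B ⊆ H ∧
    part A c i₀ = ∅ ∧ part B c i₀ = ∅ ∧ (∀ i, i ≠ i₀ → (part A c i).Nonempty) ∧
    (∀ i, i ≠ i₀ → (part B c i).card = 1) ∧
    (∃ b, b ∈ B ∧ b ∉ A ∧ ∀ a, a ∈ B → a ∉ A → a = b) ∧
    ∀ a b, G.Adj a b ↔
      (a ∈ H ∧ b ∈ H ∧ c a ≠ c b) ∨ (a = w ∧ b ∈ A) ∨ (b = w ∧ a ∈ A) ∨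
        (a = u ∧ b ∈ B) ∨ (b = u ∧ a ∈ B) ∨ (a = w ∧ b = u) ∨ (a = u ∧ b = w)

/-- Type E: `IsDouble` over the Turan graph on `N` vertices, `|A| = j - r`, the class `i₀` is a
largest one, and `A` is placed in the smaller classes first. -/
def IsTypeE {V : Type} (r N j : ℕ) (G : SimpleGraph V) : Prop :=
  ∃ (H : Finset V) (c : V → Fin r) (A : Finset V) (i₀ : Fin r),
    H.card = N ∧ (∀ i k, (part H c i).card ≤ (part H c k).card + 1) ∧
    IsDouble G H c A i₀ ∧ A.card + r = j ∧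
    (∀ k, k ≠ i₀ → (part H c k).card ≤ (part H c i₀).card) ∧ SmallFirst H A c {i₀}

open Pool.Agent.Work.MP_5532fa_up in
theorem isTypeD_iff {V : Type} {r N j : ℕ} {G : SimpleGraph V} :
    IsTypeD r N j G ↔ TypeD r N j G := by
  constructor
  · rintro ⟨H, c, w, A, v₁, v₂, h1, h2, h3, h4, h5, h6, h7, h8, h9, h10, h11, h12⟩
    exact ⟨H, c, w, A, v₁, v₂, ⟨h1, h3, h4, h7, h8, h9, h6, h12⟩, h5, h2, h11, h10⟩
  · rintro ⟨H, c, w, A, v₁, v₂, ⟨h1, h3, h4, h7, h8, h9, h6, h12⟩, h5, h2, h11, h10⟩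
    exact ⟨H, c, w, A, v₁, v₂, h1, h2, h3, h4, h5, h6, h7, h8, h9, h10, h11, h12⟩

open Pool.Agent.Work.MP_5532fa_up in
theorem isDouble_of {V : Type} [Fintype V] {r N : ℕ} {G : SimpleGraph V} {H : Finset V}
    {c : V → Fin r} {w u : V} {A B : Finset V} {i0 : Fin r} (h : WE G N H c w u A B i0)
    (hO : OneOut A B) : IsDouble G H c A i0 :=
  ⟨w, u, B, h.hw, h.hu, h.hwu, h.hA, h.hB, h.hA0, h.hB0, h.hAne, h.hB1, hO, h.adj⟩

open Pool.Agent.Work.MP_5532fa_up in
theorem isTypeE_of {V : Type} [Fintype V] {r N j : ℕ} {G : SimpleGraph V}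
    (h : TypeE r N j G) : IsTypeE r N j G := by
  obtain ⟨H, c, w, u, A, B, i0, hW, hO, hA, hB, hP, hT⟩ := h
  refine ⟨H, c, A, i0, hW.card, hB, isDouble_of hW hO, hA, ?_, hP⟩
  intro k hk
  exact hT i0 k (Finset.mem_singleton.mpr rfl) (fun h => hk (Finset.mem_singleton.mp h))

open Pool.Agent.Work.MP_5532fa_up in
theorem isGadget_of {V : Type} [Fintype V] {r n : ℕ} {G : SimpleGraph V} {H : Finset V}
    {c : V → Fin r} (h : Gad n G H c) : H.card = n ∧ IsGadget G H c := by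
  obtain ⟨w, A, v1, v2, hW, hA, hT⟩ := h
  have hge : ∀ i ∈ (Finset.univ : Finset (Fin r)), 1 ≤ (cl A c i).card :=
    fun i _ => Finset.card_pos.mpr (hW.hne i)
  have hsum : ∑ i : Fin r, 1 = ∑ i, (cl A c i).card := by
    rw [sum_card_cl, hA]
    simp
  have h1 := (Finset.sum_eq_sum_iff_of_le hge).mp hsum
  have m1 : v1 ∈ A := by
    have : v1 ∈ cl A c (c v1) := by rw [hW.h1]; exact Finset.mem_singleton.mpr rfl
    exact (mem_cl.mp this).1
  have m2 : v2 ∈ A := by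
    have : v2 ∈ cl A c (c v2) := by rw [hW.h2]; exact Finset.mem_singleton.mpr rfl
    exact (mem_cl.mp this).1
  refine ⟨hW.card, w, A, v1, v2, hW.hw, hW.hA, fun i => (h1 i (Finset.mem_univ i)).symm, m1, m2,
    hW.h12, ?_, hW.adj⟩
  intro i hi1 hi2
  have hi : i ∉ ({c v1, c v2} : Finset (Fin r)) := by
    simp only [Finset.mem_insert, Finset.mem_singleton]
    rintro (h | h)
    · exact hi1 h
    · exact hi2 h
  exact ⟨hT (c v1) i (by simp) hi, hT (c v2) i (by simp) hi⟩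

/-- Let `r ≥ 3`. For some `κ > 0` and every `ε > 0`, for all large `m = t_r(N) + j < t_r(N+1)`,
`X = j / ((1 - 1/r) N)`, such that
`r ≥ 7`, or
`r = 6` and `|X - 2/3| ≥ ε`, or
`j ≥ r - 1` and `X ≤ 1 - 2/r - ε`, or
`m = e(K) + r - 1` for a complete `r`-partite graph `K` on `n ∈ {N, N+1}` vertices with class sizes
`y` of imbalance `R = ∑ (y_i - n/r)²`, `R³ ≤ κ n²`:
extremal graphs exist, and each of them is of one of the following kinds, in the given range.
(1) `j ≤ r - 2`, a gadget over a complete `r`-partite graph on `N` vertices;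
(2) `j ≥ r - 1`, `j ≠ 2r - 2`, type D, where `(r+1) X ≥ 1 - ε` if `j ≥ 2r - 1`,
and `X ≤ 1 - 2/r + ε`;
(3) `j = 2r - 2`, `IsDouble` over a complete `r`-partite graph on `N` vertices, `|A| = r - 1`;
(4) `j ≥ 2r - 1`, type E, `(r+1) X ≤ 1 + X⁴/(r(r-1)) + ε`;
(5) `X ≥ 1 - 2/r - ε`, a gadget over a complete `r`-partite graph on `N + 1` vertices, whose largest
class is as large as possible if `X ≤ 1 - ε`. -/
theorem result (r : ℕ) (hr : 3 ≤ r) : ∃ κ : ℝ, 0 < κ ∧ ∀ ε : ℝ, 0 < ε →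
    ∃ m₀ : ℕ, ∀ m ≥ m₀, ∀ N j : ℕ, m = t r N + j → m < t r (N + 1) →
    (7 ≤ r ∨ (r = 6 ∧ ε ≤ |ratio r N j - (1 - 2 / r)|) ∨
      (r - 1 ≤ j ∧ ratio r N j ≤ 1 - 2 / r - ε) ∨
      ∃ (n : ℕ) (y : Fin r → ℕ), (n = N ∨ n = N + 1) ∧ ∑ i, y i = n ∧
        2 * (m : ℝ) = (n : ℝ) ^ 2 - ∑ i, (y i : ℝ) ^ 2 + 2 * (r - 1) ∧
        (∑ i, ((y i : ℝ) - n / r) ^ 2) ^ 3 ≤ κ * n ^ 2) →
    (∃ G : SimpleGraph (Fin (2 * m)), IsExtremal r m G) ∧
    ∀ (V : Type) [Fintype V] (G : SimpleGraph V), IsExtremal r m G →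
      (j + 1 < r ∧ ∃ (H : Finset V) (c : V → Fin r), H.card = N ∧ IsGadget G H c) ∨
      (r - 1 ≤ j ∧ j ≠ 2 * r - 2 ∧ IsTypeD r N j G ∧
        (2 * r - 1 ≤ j → 1 - ε ≤ ((r : ℝ) + 1) * ratio r N j) ∧
        ratio r N j ≤ 1 - 2 / r + ε) ∨
      (j = 2 * r - 2 ∧ ∃ (H : Finset V) (c : V → Fin r) (A : Finset V) (i₀ : Fin r),
        H.card = N ∧ A.card = r - 1 ∧ IsDouble G H c A i₀) ∨
      (2 * r - 1 ≤ j ∧ IsTypeE r N j G ∧
        ((r : ℝ) + 1) * ratio r N j ≤ 1 + ratio r N j ^ 4 / (r * ((r : ℝ) - 1)) + ε) ∨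
      (1 - 2 / r - ε ≤ ratio r N j ∧ ∃ (H : Finset V) (c : V → Fin r), H.card = N + 1 ∧
        IsGadget G H c ∧ (ratio r N j ≤ 1 - ε → LargestPossible H c)) := by
  obtain ⟨κ, hκ, H5⟩ := Pool.Agent.Work.MP_5532fa_up.pMAIN5 r hr
  refine ⟨κ, hκ, fun ε hε => ?_⟩
  obtain ⟨m1, H1⟩ := H5 ε hε
  obtain ⟨m2, H2⟩ := Pool.Agent.Work.MP_5532fa_up.pEXT r hr
  have key : ∀ (V : Type) [Fintype V] (G : SimpleGraph V) (m : ℕ),
      MP5532fa.pE G = 2 * (m : ℝ) ↔ G.edgeSet.ncard = m := by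
    intro V _ G m
    rw [MP5532fa.pE_eq]
    constructor
    · intro e
      have : (G.edgeSet.ncard : ℝ) = m := by linarith
      exact_mod_cast this
    · intro e
      rw [e]
  refine ⟨m1 + m2, fun m hm N j hmj hlt hcov => ⟨?_, ?_⟩⟩
  · obtain ⟨G, h1, h2, h3, h4⟩ := H2 m (by omega)
    refine ⟨G, ⟨h1, h2, (key _ G m).mp h3⟩, ?_⟩
    rintro V' _ K ⟨d1, d2, d3⟩
    exact h4 V' K d1 d2 ((key _ K m).mpr d3)
  · rintro V _ G ⟨⟨h1, h2, h3⟩, hmax⟩
    have hcov' : Pool.Agent.Work.MP_5532fa_up.Cov r ε N j ∨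
        Pool.Agent.Work.MP_5532fa_up.CovS r κ N m := by
      rcases hcov with h | ⟨h, h'⟩ | ⟨h, h'⟩ | h
      · exact Or.inl (Or.inl h)
      · exact Or.inl (Or.inr (Or.inl ⟨h.ge, h'⟩))
      · exact Or.inl (Or.inr (Or.inr ⟨by omega, h'⟩))
      · exact Or.inr h
    have h := H1 m (by omega) N j hmj hlt hcov' V G ⟨h1, h2, (key _ G m).mpr h3,
      fun V' _ G' a b e => hmax V' G' ⟨a, b, (key _ G' m).mp e⟩⟩
    rcases h with ⟨a1, c, H, a2⟩ | ⟨a1, a2, a3, a4, a5⟩ | ⟨a1, a2⟩ | ⟨a1, a2, a3⟩ |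
      ⟨a1, c, H, a2, a3⟩
    · exact Or.inl ⟨a1, H, c, isGadget_of a2⟩
    · exact Or.inr (Or.inl ⟨by omega, by omega, isTypeD_iff.mpr a3, fun h => a4 (by omega), a5⟩)
    · obtain ⟨H, c, w, u, A, B, i0, b1, b2, b3, -⟩ := a2
      exact Or.inr (Or.inr (Or.inl ⟨by omega, H, c, A, i0, b1.card, by omega,
        isDouble_of b1 b2⟩))
    · exact Or.inr (Or.inr (Or.inr (Or.inl ⟨by omega, isTypeE_of a2, a3⟩)))
    · obtain ⟨e1, e2⟩ := isGadget_of a2
      refine Or.inr (Or.inr (Or.inr (Or.inr ⟨a1, H, c, e1, e2, fun h => ?_⟩)))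
      obtain ⟨i, hi⟩ := a3 h
      exact ⟨i, fun z z1 z2 k => hi z (z1.trans e1) z2 k⟩

end Pool.Agent.Results.MP_5532fa_co.ExactForms
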