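import Pool.Agent.Work.MP_5532fa_full.P39

/-!
# MP_5532fa_co : the extremal graphs for a positive proportion of all numbers of edges
-/

namespace Pool.Agent.Results.MP_5532fa_co.LinearRange

open Classical in
/-- The spectral radius of a finite graph: the largest real eigenvalue of the adjacency matrix. -/
noncomputable def spectralRadius {V : Type*} [Fintype V] (G : SimpleGraph V) : ℝ :=
  sSup (spectrum ℝ (G.adjMatrix ℝ))

/-- `G` is isomorphic to `D` together with some isolated vertices. -/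
def IsUpToIsolated {V W : Type*} (G : SimpleGraph V) (D : SimpleGraph W) : Prop :=
  ∃ f : D ↪g G, ∀ v, v ∉ Set.range f → ∀ w, ¬ G.Adj v w

/-- The class of graphs of the problem for `m = t_r(N) + j` edges, `t_r(N)` the number of edges of
the Turan graph: no clique on `r + 1` vertices and not `r`-colourable. -/
def InClass {V : Type} (r N j : ℕ) (G : SimpleGraph V) : Prop :=
  G.CliqueFree (r + 1) ∧ ¬ G.Colorable r ∧
    G.edgeSet.ncard = (SimpleGraph.turanGraph N r).edgeSet.ncard + j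

/-- The vertices of `S` in the class `i`. -/
def part {V : Type} {r : ℕ} (S : Finset V) (c : V → Fin r) (i : Fin r) : Finset V :=
  S.filter (fun v => c v = i)

/-- Outside the classes in `P`, the vertices of `A` are distributed in this way: classes of `H` of
equal size contain equal numbers of vertices of `A` up to one, and a larger class contains more than
one vertex of `A` only if all smaller classes are contained in `A`. -/
def SmallFirst {V : Type} {r : ℕ} (H A : Finset V) (c : V → Fin r) (P : Finset (Fin r)) : Prop :=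
  ∀ i k, i ∉ P → k ∉ P →
    ((part H c i).card = (part H c k).card → (part A c i).card ≤ (part A c k).card + 1) ∧
    ((part H c i).card < (part H c k).card →
      (part A c i).card = (part H c i).card ∨ (part A c k).card = 1)

/-- Type D: the Turan graph on a set `H` of `N` vertices without an edge `v₁ v₂`, and a vertex `w`
joined exactly to a set `A` of `j + 1` vertices of `H` meeting all classes, `v₁` and `v₂` being the
only vertices of `A` in their classes; the other vertices are isolated. The classes of `v₁` and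
`v₂` are largest ones, and the rest of `A` is placed in the smaller classes first. -/
def IsTypeD {V : Type} (r N j : ℕ) (G : SimpleGraph V) : Prop :=
  ∃ (H : Finset V) (c : V → Fin r) (w : V) (A : Finset V) (v₁ v₂ : V),
    H.card = N ∧ (∀ i k, (part H c i).card ≤ (part H c k).card + 1) ∧
    w ∉ H ∧ A ⊆ H ∧ A.card = j + 1 ∧ (∀ i, (part A c i).Nonempty) ∧
    c v₁ ≠ c v₂ ∧ part A c (c v₁) = {v₁} ∧ part A c (c v₂) = {v₂} ∧
    (∀ i k, i ∈ ({c v₁, c v₂} : Finset (Fin r)) → k ∉ ({c v₁, c v₂} : Finset (Fin r)) →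
      (part H c k).card ≤ (part H c i).card) ∧
    SmallFirst H A c {c v₁, c v₂} ∧
    ∀ a b, G.Adj a b ↔
      (a ∈ H ∧ b ∈ H ∧ c a ≠ c b ∧ ¬ (a = v₁ ∧ b = v₂) ∧ ¬ (a = v₂ ∧ b = v₁)) ∨
        (a = w ∧ b ∈ A) ∨ (b = w ∧ a ∈ A)

/-- Type E: the Turan graph on a set `H` of `N` vertices and two adjacent new vertices `w`, `u`; `w`
is joined to a set `A` of `j - r` vertices of `H`, `u` to a set `B` of `r - 1` vertices of `H`; the
other vertices are isolated. The class `i₀` (a largest one) contains no vertex of `A` or `B`, each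
other class contains exactly one vertex of `B` and at least one vertex of `A`, exactly one vertex of
`B` is not in `A`, and `A` is placed in the smaller classes first. -/
def IsTypeE {V : Type} (r N j : ℕ) (G : SimpleGraph V) : Prop :=
  ∃ (H : Finset V) (c : V → Fin r) (w u : V) (A B : Finset V) (i₀ : Fin r),
    H.card = N ∧ (∀ i k, (part H c i).card ≤ (part H c k).card + 1) ∧
    w ∉ H ∧ u ∉ H ∧ w ≠ u ∧ A ⊆ H ∧ B ⊆ H ∧ A.card + r = j ∧
    part A c i₀ = ∅ ∧ part B c i₀ = ∅ ∧ (∀ i, i ≠ i₀ → (part A c i).Nonempty) ∧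
    (∀ i, i ≠ i₀ → (part B c i).card = 1) ∧
    (∃ b, b ∈ B ∧ b ∉ A ∧ ∀ a, a ∈ B → a ∉ A → a = b) ∧
    (∀ k, k ≠ i₀ → (part H c k).card ≤ (part H c i₀).card) ∧
    SmallFirst H A c {i₀} ∧
    ∀ a b, G.Adj a b ↔
      (a ∈ H ∧ b ∈ H ∧ c a ≠ c b) ∨ (a = w ∧ b ∈ A) ∨ (b = w ∧ a ∈ A) ∨
        (a = u ∧ b ∈ B) ∨ (b = u ∧ a ∈ B) ∨ (a = w ∧ b = u) ∨ (a = u ∧ b = w)

open Pool.Agent.Work.MP_5532fa_up in
theorem isTypeD_iff {V : Type} {r N j : ℕ} {G : SimpleGraph V} :
    IsTypeD r N j G ↔ TypeD r N j G := by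
  constructor
  · rintro ⟨H, c, w, A, v₁, v₂, h1, h2, h3, h4, h5, h6, h7, h8, h9, h10, h11, h12⟩
    exact ⟨H, c, w, A, v₁, v₂, ⟨h1, h3, h4, h7, h8, h9, h6, h12⟩, h5, h2, h11, h10⟩
  · rintro ⟨H, c, w, A, v₁, v₂, ⟨h1, h3, h4, h7, h8, h9, h6, h12⟩, h5, h2, h11, h10⟩
    exact ⟨H, c, w, A, v₁, v₂, h1, h2, h3, h4, h5, h6, h7, h8, h9, h10, h11, h12⟩

open Pool.Agent.Work.MP_5532fa_up in
theorem isTypeE_iff {V : Type} {r N j : ℕ} {G : SimpleGraph V} :
    IsTypeE r N j G ↔ TypeE r N j G := by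
  constructor
  · rintro ⟨H, c, w, u, A, B, i₀, h1, h2, h3, h4, h5, h6, h7, h8, h9, h10, h11, h12, h13, h14, h15,
      h16⟩
    refine ⟨H, c, w, u, A, B, i₀, ⟨h1, h3, h4, h5, h6, h7, h9, h10, h11, h12, ?_, h16⟩, h13, h8,
      h2, h15, ?_⟩
    · obtain ⟨b, hb, hb', _⟩ := h13
      exact fun h => hb' (h hb)
    · intro i k hi hk
      rw [Finset.mem_singleton] at hi hk
      rw [hi]
      exact h14 k hk
  · rintro ⟨H, c, w, u, A, B, i₀, ⟨h1, h3, h4, h5, h6, h7, h9, h10, h11, h12, _, h16⟩, h13, h8,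
      h2, h15, h14⟩
    refine ⟨H, c, w, u, A, B, i₀, h1, h2, h3, h4, h5, h6, h7, h8, h9, h10, h11, h12, h13, ?_, h15,
      h16⟩
    intro k hk
    exact h14 i₀ k (Finset.mem_singleton.mpr rfl) (fun h => hk (Finset.mem_singleton.mp h))

/-- Let `r ≥ 3`, `ε > 0`. For all large `N` and all `j` with
`2r - 1 ≤ j ≤ ((1 - 2/r)(1 - 1/r) - ε) N`, among the graphs with `t_r(N) + j` edges without a clique
on `r + 1` vertices which are not `r`-colourable, the graphs of maximum spectral radius are exactly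
the graphs of type D or the graphs of type E, whichever have the larger spectral radius (both, in
case of equality). All graphs of type D are equal up to isolated vertices, all graphs of type E
have the same spectral radius. With `X = j / ((1 - 1/r) N)`, type E wins if `(r + 1) X ≤ 1 - ε`, and
type D wins if `(r + 1) X ≥ 1 + X⁴ / (r (r - 1)) + ε`. -/
theorem result (r : ℕ) (hr : 3 ≤ r) (ε : ℝ) (hε : 0 < ε) : ∃ N₀ : ℕ, ∀ N ≥ N₀, ∀ j : ℕ,
    2 * r - 1 ≤ j → (j : ℝ) ≤ ((1 - 2 / r) * (1 - 1 / r) - ε) * N →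
    ∃ D E : SimpleGraph (Fin (N + 2)), IsTypeD r N j D ∧ IsTypeE r N j E ∧
      (∀ (V : Type) [Fintype V] (G : SimpleGraph V), InClass r N j G →
        spectralRadius G ≤ max (spectralRadius D) (spectralRadius E) ∧
        (spectralRadius G = max (spectralRadius D) (spectralRadius E) ↔
          (IsTypeD r N j G ∧ spectralRadius E ≤ spectralRadius D) ∨
          (IsTypeE r N j G ∧ spectralRadius D ≤ spectralRadius E))) ∧
      (∀ (V : Type) [Fintype V] (G : SimpleGraph V), IsTypeD r N j G →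
        InClass r N j G ∧ spectralRadius G = spectralRadius D ∧
        ∃ (W : Type) (K : SimpleGraph W), IsUpToIsolated G K ∧ IsUpToIsolated D K) ∧
      (∀ (V : Type) [Fintype V] (G : SimpleGraph V), IsTypeE r N j G →
        InClass r N j G ∧ spectralRadius G = spectralRadius E) ∧
      (((r : ℝ) + 1) * (j / ((1 - 1 / r) * N)) ≤ 1 - ε → spectralRadius D < spectralRadius E) ∧
      (1 + (j / ((1 - 1 / r) * N)) ^ 4 / (r * ((r : ℝ) - 1)) + ε
          ≤ ((r : ℝ) + 1) * (j / ((1 - 1 / r) * N)) →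
        spectralRadius E < spectralRadius D) := by
  obtain ⟨N0, H⟩ := Pool.Agent.Work.MP_5532fa_up.pLIN2 r ε hr hε
  refine ⟨N0, fun N hN j hj hj2 => ?_⟩
  obtain ⟨lD, lE, a1, a2, ⟨D, hD⟩, ⟨E, hE⟩, a5, a6, a7⟩ := H N hN j (by omega) hj2
  have hcl : ∀ (V : Type) [Fintype V] (G : SimpleGraph V),
      (MP5532fa.pE G = 2 * ((Pool.Agent.Work.MP_5532fa_up.tn r N : ℝ) + j)) ↔
        G.edgeSet.ncard = (SimpleGraph.turanGraph N r).edgeSet.ncard + j := by
    intro V _ G
    rw [MP5532fa.pE_eq]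
    unfold Pool.Agent.Work.MP_5532fa_up.tn
    constructor
    · intro h
      have h2 : (G.edgeSet.ncard : ℝ)
          = (((SimpleGraph.turanGraph N r).edgeSet.ncard + j : ℕ) : ℝ) := by
        push_cast
        linarith
      exact_mod_cast h2
    · intro h
      rw [h]
      push_cast
      ring
  have eD : spectralRadius D = lD := (a1 _ D hD).2
  have eE : spectralRadius E = lE := (a2 _ E hE).2
  refine ⟨D, E, isTypeD_iff.mpr hD, isTypeE_iff.mpr hE, ?_, ?_, ?_, ?_, ?_⟩
  · rintro V _ G ⟨h1, h2, h3⟩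
    rw [eD, eE, isTypeD_iff, isTypeE_iff]
    exact a5 V G h1 h2 ((hcl V G).mpr h3)
  · intro V _ G hG
    have hG' := isTypeD_iff.mp hG
    obtain ⟨⟨h1, h2, h3⟩, h4⟩ := a1 V G hG'
    refine ⟨⟨h1, h2, (hcl V G).mp h3⟩, ?_, ?_⟩
    · rw [eD]; exact h4
    · exact Pool.Agent.Work.MP_5532fa_up.pISOD2 r N j V (Fin (N + 2)) G D hG' hD
  · intro V _ G hG
    obtain ⟨⟨h1, h2, h3⟩, h4⟩ := a2 V G (isTypeE_iff.mp hG)
    refine ⟨⟨h1, h2, (hcl V G).mp h3⟩, ?_⟩
    rw [eE]; exact h4
  · rw [eD, eE]; exact a6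
  · rw [eD, eE]; exact a7

end Pool.Agent.Results.MP_5532fa_co.LinearRange
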